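import Pool.Agent.Work.MP_14a437_ag.S.Ext

/-!
# S/AdmH  (M) : the heart `P((a,a+1])` is an admissible abelian subcategory

`iso`, `zero`, `ext`: `PS_iso`, `PS_zero`, `PS_ext` (`Set.ordConnected_Ioc`).
`hom_neg`: the phases of `Y⟦n⟧` are in `(a+n, a+n+1]`, `n ≤ -1` (`PS_shiftn`, `PS_hom_zero`).
`adm`: for `X → Y → W → X[1]` rotate: `Y → W → X[1]` is distinguished, so `W` has phases in
`Ioc a (a+2)` (`PS_ext`, `PS_mono`, `PS_shiftn`).  Truncate with `L = Iic (a+1)` (`PS_trunc`):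
`W' → W → Q` with `W' ∈ PS (Ioc (a+1) (a+2))`, `Q ∈ PS (Ioc a (a+1))`; `K := W'⟦-1⟧`, and replace `W'` by
the isomorphic `K⟦1⟧` in the triangle (`isomorphic_distinguished`, `Triangle.isoMk`).
-/

open CategoryTheory CategoryTheory.Limits CategoryTheory.Pretriangulated

universe v u

namespace MP_14a437_ag

variable {C : Type u} [Category.{v} C] [Preadditive C] [HasZeroObject C] [HasShift C ℤ]
  [∀ n : ℤ, (shiftFunctor C n).Additive] [Pretriangulated C] [IsTriangulated C]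

/-- Replacing the first object of a triangle by an isomorphic one. -/
private theorem adm_tri_aux {K W' W Q : C} (e : K⟦(1 : ℤ)⟧ ≅ W') (i : W' ⟶ W) (p : W ⟶ Q)
    (q : Q ⟶ W'⟦(1 : ℤ)⟧) (hT : Triangle.mk i p q ∈ distTriang C) :
    Triangle.mk (e.hom ≫ i) p (q ≫ e.inv⟦(1 : ℤ)⟧') ∈ distTriang C := by
  refine isomorphic_distinguished _ hT _ ?_
  refine Triangle.isoMk _ _ e (Iso.refl _) (Iso.refl _) ?_ ?_ ?_
  · change (e.hom ≫ i) ≫ 𝟙 _ = e.hom ≫ i
    rw [Category.comp_id]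
  · change p ≫ 𝟙 _ = 𝟙 _ ≫ p
    rw [Category.comp_id, Category.id_comp]
  · change (q ≫ e.inv⟦(1 : ℤ)⟧') ≫ e.hom⟦(1 : ℤ)⟧' = 𝟙 _ ≫ q
    rw [Category.assoc, ← CategoryTheory.Functor.map_comp, e.inv_hom_id,
      CategoryTheory.Functor.map_id, Category.comp_id, Category.id_comp]

theorem heart_isAdm (S : Slicing C) (a : ℝ) : IsAdm (S.heart a) where
  iso := ⟨fun e hX => PS_iso S e hX⟩
  zero := fun X hX => PS_zero S _ hX
  ext := fun f g h hT hA hB => PS_ext S Set.ordConnected_Ioc f g h hT hA hB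
  hom_neg := by
    intro X Y n hn hX hY f
    have hY' : S.PS (Set.Iic a) (Y⟦n⟧) := PS_shiftn S n (by
      intro φ hφ
      have h1 : (n : ℝ) ≤ -1 := by
        have : n ≤ -1 := by omega
        exact_mod_cast this
      have h2 := hφ.2
      change φ + n ≤ a
      linarith) hY
    refine PS_hom_zero S ?_ hX hY' f
    intro φ hφ ψ hψ
    exact lt_of_le_of_lt hψ hφ.1
  adm := by
    intro X Y W f g h hT hX hY
    have hR := rot_of_distTriang _ hT
    have hX1 : S.PS (Set.Ioc a (a + 2)) (X⟦(1 : ℤ)⟧) := PS_shiftn S 1 (by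
      intro φ hφ
      have h1 := hφ.1
      have h2 := hφ.2
      push_cast
      exact ⟨by linarith, by linarith⟩) hX
    have hY1 : S.PS (Set.Ioc a (a + 2)) Y := PS_mono S (by
      intro φ hφ
      exact ⟨hφ.1, by linarith [hφ.2]⟩) hY
    have hW : S.PS (Set.Ioc a (a + 2)) W := PS_ext S Set.ordConnected_Ioc _ _ _ hR hY1 hX1
    obtain ⟨W', Q, i, p, q, hT', hW', hQ⟩ := PS_trunc S (isLowerSet_Iic (a + 1)) hW
    refine ⟨W'⟦(-1 : ℤ)⟧, Q, (shiftNegShift W' (1 : ℤ)).hom ≫ i, p,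
      q ≫ ((shiftNegShift W' (1 : ℤ)).inv)⟦(1 : ℤ)⟧', ?_, ?_, ?_⟩
    · exact adm_tri_aux _ i p q hT'
    · refine PS_shiftn S (-1) ?_ hW'
      intro φ hφ
      have h1 := hφ.1.2
      have h2 : ¬ φ ≤ a + 1 := hφ.2
      push_cast
      exact ⟨by linarith, by linarith⟩
    · refine PS_mono S ?_ hQ
      intro φ hφ
      exact ⟨hφ.1.1, hφ.2⟩

end MP_14a437_ag
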