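import Pool.Agent.Work.MP_14a437_ag.S.Ext
import Pool.Agent.Work.MP_14a437_ag.K.Basic

/-!
# S/AdmP  (M) : for a stability condition, `P φ` is an admissible abelian subcategory

`iso`, `zero`, `ext`: `S.iso`, `S.zero`, `P_ext`.  `hom_neg`: `Y⟦n⟧ ∈ P (φ+n)` (`P_shiftn`), `S.hom`.
`adm`: for `X → Y → W → X[1]` with `X, Y ∈ P φ`: `W` has phases in `Icc φ (φ+1)` (`PS_ext`, rotated
triangle).  Truncate with `L = Iic φ` (`PS_trunc`): `W' → W → Q` with `W' ∈ PS (Ioc φ (φ+1))`,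
`Q ∈ PS {φ}` (`PS_singleton`).  By `cl_tri`, `Z(W') = Z(Y) - Z(X) - Z(Q)` is a real multiple of
`exp(π i φ)`, so `Im (exp(-π i φ) Z(W')) = 0` and `W' ∈ PS {φ+1}` by `PS_im_nonneg`, `W' ∈ P (φ+1)`;
`K := W'⟦-1⟧ ∈ P φ` (`P_shiftn` with `n = -1`).

`PS_im_nonneg`: induction on the HN filtration of `W`: a factor `A` of phase `ψ ∈ (φ, φ+1]` has
`Im (exp(-π i φ) Z(A)) = m sin(π(ψ-φ)) ≥ 0` with `m > 0`, and `= 0` iff `ψ = φ + 1`; `Z` is additive on
triangles (`cl_tri`).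
-/

open CategoryTheory CategoryTheory.Limits CategoryTheory.Pretriangulated

universe v u

namespace MP_14a437_ag

variable {C : Type u} [Category.{v} C] [Preadditive C] [HasZeroObject C] [HasShift C ℤ]
  [∀ n : ℤ, (shiftFunctor C n).Additive] [Pretriangulated C] [IsTriangulated C]

omit [IsTriangulated C] in
private theorem im_formula (σ : StabCond C) (φ ψ : ℝ) {A : C} (hA : σ.P ψ A) (h0 : ¬ IsZero A) :
    ∃ m : ℝ, 0 < m ∧ (Complex.exp (-(Real.pi * φ * Complex.I)) * σ.Z (cl A)).im =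
      m * Real.sin (Real.pi * (ψ - φ)) := by
  obtain ⟨m, hm, hZ⟩ := σ.compat ψ A hA h0
  refine ⟨m, hm, ?_⟩
  have e1 : Complex.exp (-(Real.pi * φ * Complex.I)) * σ.Z (cl A) =
      (m : ℂ) * Complex.exp (((Real.pi * (ψ - φ) : ℝ) : ℂ) * Complex.I) := by
    rw [hZ, mul_left_comm, ← Complex.exp_add]
    congr 2
    push_cast
    ring
  rw [e1, Complex.im_ofReal_mul, Complex.exp_ofReal_mul_I_im]

omit [IsTriangulated C] in
private theorem im_zero_of_P (σ : StabCond C) (φ : ℝ) {A : C} (hA : σ.P φ A) :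
    (Complex.exp (-(Real.pi * φ * Complex.I)) * σ.Z (cl A)).im = 0 := by
  by_cases h0 : IsZero A
  · rw [cl_zero h0, map_zero, mul_zero, Complex.zero_im]
  · obtain ⟨m, -, h⟩ := im_formula σ φ φ hA h0
    rw [h, sub_self, mul_zero, Real.sin_zero, mul_zero]

private theorem sin_aux {t : ℝ} (h0 : 0 < t) (h1 : t ≤ 1) :
    0 ≤ Real.sin (Real.pi * t) ∧ (Real.sin (Real.pi * t) = 0 → t = 1) := by
  have hpi := Real.pi_pos
  refine ⟨Real.sin_nonneg_of_nonneg_of_le_pi (by positivity) (by nlinarith), fun h => ?_⟩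
  by_contra hne
  have hlt : t < 1 := lt_of_le_of_ne h1 hne
  have := Real.sin_pos_of_pos_of_lt_pi (x := Real.pi * t) (by positivity) (by nlinarith)
  exact this.ne' h

omit [IsTriangulated C] in
private theorem hn_im (σ : StabCond C) (φ : ℝ) {W : C} {l : List ℝ} (hW : HN σ.P W l)
    (hl : ∀ ψ ∈ l, ψ ∈ Set.Ioc φ (φ + 1)) :
    0 ≤ (Complex.exp (-(Real.pi * φ * Complex.I)) * σ.Z (cl W)).im ∧
    ((Complex.exp (-(Real.pi * φ * Complex.I)) * σ.Z (cl W)).im = 0 →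
      ∀ ψ ∈ l, ψ = φ + 1) := by
  induction hW with
  | zero h0 =>
    rw [cl_zero h0, map_zero, mul_zero, Complex.zero_im]
    exact ⟨le_refl _, fun _ ψ hψ => by simp at hψ⟩
  | @cons E' E A l χ f g h hT hE' hA hA0 hlt ih =>
    obtain ⟨i1, i2⟩ := ih (fun ψ hψ => hl ψ (List.mem_cons_of_mem _ hψ))
    obtain ⟨m, hm, hA1⟩ := im_formula σ φ χ hA hA0
    have hχ := hl χ List.mem_cons_self
    obtain ⟨s1, s2⟩ := sin_aux (t := χ - φ) (by linarith [hχ.1]) (by linarith [hχ.2])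
    have e1 : (Complex.exp (-(Real.pi * φ * Complex.I)) * σ.Z (cl E)).im =
        (Complex.exp (-(Real.pi * φ * Complex.I)) * σ.Z (cl E')).im +
          m * Real.sin (Real.pi * (χ - φ)) := by
      rw [cl_tri f g h hT, map_add, mul_add, Complex.add_im, hA1]
    have hms : 0 ≤ m * Real.sin (Real.pi * (χ - φ)) := mul_nonneg hm.le s1
    rw [e1]
    refine ⟨by linarith, fun h0 ψ hψ => ?_⟩
    have k1 : m * Real.sin (Real.pi * (χ - φ)) = 0 := by linarith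
    have k2 : (Complex.exp (-(Real.pi * φ * Complex.I)) * σ.Z (cl E')).im = 0 := by linarith
    rcases List.mem_cons.1 hψ with rfl | hψ
    · have := s2 ((mul_eq_zero.1 k1).resolve_left hm.ne')
      linarith
    · exact i2 k2 ψ hψ

omit [IsTriangulated C] in
/-- `Im (exp(-π i φ) Z(W)) ≥ 0` for `W ∈ P((φ,φ+1])`, and `= 0` only if `W ∈ P(φ+1)`. -/
theorem PS_im_nonneg (σ : StabCond C) (φ : ℝ) {W : C} (hW : σ.PS (Set.Ioc φ (φ + 1)) W) :
    0 ≤ (Complex.exp (-(Real.pi * φ * Complex.I)) * σ.Z (cl W)).im ∧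
    ((Complex.exp (-(Real.pi * φ * Complex.I)) * σ.Z (cl W)).im = 0 → σ.PS {φ + 1} W) := by
  obtain ⟨l, hl, hlI⟩ := hW
  obtain ⟨h1, h2⟩ := hn_im σ φ hl hlI
  exact ⟨h1, fun h => ⟨l, hl, fun ψ hψ => h2 h ψ hψ⟩⟩

omit [IsTriangulated C] in
/-- Replacing the first object of a triangle by an isomorphic one. -/
private theorem adm_tri_aux {K W' W Q : C} (e : K⟦(1 : ℤ)⟧ ≅ W') (i : W' ⟶ W) (p : W ⟶ Q)
    (q : Q ⟶ W'⟦(1 : ℤ)⟧) (hT : Triangle.mk i p q ∈ distTriang C) :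
    Triangle.mk (e.hom ≫ i) p (q ≫ e.inv⟦(1 : ℤ)⟧') ∈ distTriang C := by
  refine isomorphic_distinguished _ hT _ ?_
  refine Triangle.isoMk _ _ e (Iso.refl _) (Iso.refl _) ?_ ?_ ?_
  · change (e.hom ≫ i) ≫ 𝟙 _ = e.hom ≫ i
    rw [Category.comp_id]
  · change p ≫ 𝟙 _ = 𝟙 _ ≫ p
    rw [Category.comp_id, Category.id_comp]
  · change (q ≫ e.inv⟦(1 : ℤ)⟧') ≫ e.hom⟦(1 : ℤ)⟧' = 𝟙 _ ≫ q
    rw [Category.assoc, ← CategoryTheory.Functor.map_comp, e.inv_hom_id,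
      CategoryTheory.Functor.map_id, Category.comp_id, Category.id_comp]

theorem P_isAdm (σ : StabCond C) (φ : ℝ) : IsAdm (σ.P φ) where
  iso := σ.iso φ
  zero := σ.zero φ
  ext := fun f g h hT hA hB => P_ext σ.toSlicing f g h hT hA hB
  hom_neg := by
    intro X Y n hn hX hY f
    refine σ.hom φ (φ + n) X (Y⟦n⟧) ?_ hX ((P_shiftn σ.toSlicing φ Y n).2 hY) f
    have : (n : ℝ) < 0 := by exact_mod_cast hn
    linarith
  adm := by
    intro X Y W f g h hT hX hY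
    have hR := rot_of_distTriang _ hT
    have hX1 : σ.PS (Set.Icc φ (φ + 1)) (X⟦(1 : ℤ)⟧) := PS_shiftn σ.toSlicing 1 (I := {φ}) (by
      rintro ψ rfl
      push_cast
      exact ⟨by linarith, le_refl _⟩) ((PS_singleton σ.toSlicing φ X).2 hX)
    have hY1 : σ.PS (Set.Icc φ (φ + 1)) Y := PS_mono σ.toSlicing (I := {φ}) (by
      rintro ψ rfl
      exact ⟨le_refl _, by linarith⟩) ((PS_singleton σ.toSlicing φ Y).2 hY)
    have hW : σ.PS (Set.Icc φ (φ + 1)) W :=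
      PS_ext σ.toSlicing Set.ordConnected_Icc _ _ _ hR hY1 hX1
    obtain ⟨W', Q, i, p, q, hT', hW', hQ⟩ := PS_trunc σ.toSlicing (isLowerSet_Iic φ) hW
    have hQ1 : σ.P φ Q := by
      refine (PS_singleton σ.toSlicing φ Q).1 (PS_mono σ.toSlicing ?_ hQ)
      intro ψ hψ
      exact le_antisymm hψ.2 hψ.1.1
    have hW1 : σ.PS (Set.Ioc φ (φ + 1)) W' := by
      refine PS_mono σ.toSlicing ?_ hW'
      intro ψ hψ
      exact ⟨not_le.1 hψ.2, hψ.1.2⟩
    have hW2 : σ.P (φ + 1) W' := by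
      refine (PS_singleton σ.toSlicing (φ + 1) W').1 ((PS_im_nonneg σ φ hW1).2 ?_)
      have c1 : cl W = cl W' + cl Q := cl_tri i p q hT'
      have c2 : cl Y = cl X + cl W := cl_tri f g h hT
      have c3 : cl W' = cl Y - cl X - cl Q := by
        rw [c2, c1]
        abel
      rw [c3, map_sub, map_sub, mul_sub, mul_sub, Complex.sub_im, Complex.sub_im,
        im_zero_of_P σ φ hX, im_zero_of_P σ φ hY, im_zero_of_P σ φ hQ1]
      simp
    refine ⟨W'⟦(-1 : ℤ)⟧, Q, (shiftNegShift W' (1 : ℤ)).hom ≫ i, p,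
      q ≫ ((shiftNegShift W' (1 : ℤ)).inv)⟦(1 : ℤ)⟧', ?_, ?_, hQ1⟩
    · exact adm_tri_aux _ i p q hT'
    · have := (P_shiftn σ.toSlicing (φ + 1) W' (-1)).2 hW2
      have e : φ + 1 + ((-1 : ℤ) : ℝ) = φ := by push_cast; ring
      rwa [e] at this

end MP_14a437_ag
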