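import Pool.Agent.Work.MP_14a437_ag.Defs

/-!
# S/Shift  (S-M) : HN filtrations and isomorphisms, shifts

`P_shiftn`: induction on `n` (`Int.induction_on`) from `S.shift` and the isomorphisms
`(shiftFunctorAdd C n 1).app X : X⟦n+1⟧ ≅ X⟦n⟧⟦1⟧` with `S.iso`.
`hn_shiftn`: induction on the HN filtration; the shifted triangle
`(Triangle.shiftFunctor C n).obj T` is distinguished (`Triangle.shift_distinguished`).
-/

open CategoryTheory CategoryTheory.Limits CategoryTheory.Pretriangulated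

universe v u

namespace MP_14a437_ag

variable {C : Type u} [Category.{v} C] [Preadditive C] [HasZeroObject C] [HasShift C ℤ]
  [∀ n : ℤ, (shiftFunctor C n).Additive] [Pretriangulated C]

theorem hn_iso {P : ℝ → ObjectProperty C} {E E' : C} {l : List ℝ} (h : HN P E l) (e : E ≅ E') :
    HN P E' l := by
  cases h with
  | zero h => exact HN.zero (h.of_iso e.symm)
  | cons f g h hT hE' hA hA0 hl =>
    refine HN.cons (f ≫ e.hom) (e.inv ≫ g) h ?_ hE' hA hA0 hl
    refine isomorphic_distinguished _ hT _ ?_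
    refine Triangle.isoMk _ _ (Iso.refl _) e.symm (Iso.refl _) ?_ ?_ ?_
    · change (f ≫ e.hom) ≫ e.inv = 𝟙 _ ≫ f
      rw [Category.assoc, e.hom_inv_id, Category.comp_id, Category.id_comp]
    · change (e.inv ≫ g) ≫ 𝟙 _ = e.inv ≫ g
      rw [Category.comp_id]
    · change h ≫ (shiftFunctor C (1 : ℤ)).map (𝟙 _) = 𝟙 _ ≫ h
      rw [CategoryTheory.Functor.map_id, Category.comp_id, Category.id_comp]

theorem P_iso (S : Slicing C) {φ : ℝ} {X Y : C} (e : X ≅ Y) (h : S.P φ X) : S.P φ Y :=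
  (S.iso φ).of_iso e h

theorem P_shiftn (S : Slicing C) (φ : ℝ) (X : C) (n : ℤ) : S.P (φ + n) (X⟦n⟧) ↔ S.P φ X := by
  have hi : ∀ {ψ : ℝ} {A B : C}, (A ≅ B) → (S.P ψ A ↔ S.P ψ B) := fun e =>
    ⟨P_iso S e, P_iso S e.symm⟩
  induction n using Int.induction_on with
  | zero =>
    have e : X⟦(0 : ℤ)⟧ ≅ X := (shiftFunctorZero C ℤ).app X
    rw [hi e]
    simp
  | succ n ih =>
    have e : X⟦((n : ℤ) + 1)⟧ ≅ (X⟦(n : ℤ)⟧)⟦(1 : ℤ)⟧ := (shiftFunctorAdd C (n : ℤ) 1).app X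
    refine Iff.trans ?_ ih
    rw [hi e, ← S.shift (φ + ((n : ℤ) : ℝ))]
    push_cast
    rw [add_assoc]
  | pred n ih =>
    have e : X⟦(-(n : ℤ))⟧ ≅ (X⟦(-(n : ℤ) - 1)⟧)⟦(1 : ℤ)⟧ :=
      (shiftFunctorAdd' C (-(n : ℤ) - 1) 1 (-(n : ℤ)) (by ring)).app X
    refine Iff.trans ?_ ih
    rw [hi e, ← S.shift (φ + ((-(n : ℤ) - 1 : ℤ) : ℝ))]
    push_cast
    have : φ + (-(n : ℝ) - 1) + 1 = φ + -(n : ℝ) := by ring
    rw [this]

theorem hn_shiftn (S : Slicing C) {E : C} {l : List ℝ} (h : HN S.P E l) (n : ℤ) :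
    HN S.P (E⟦n⟧) (l.map (fun φ => φ + n)) := by
  have hz : ∀ X : C, IsZero X → IsZero (X⟦n⟧) := fun X hX =>
    (shiftFunctor C n).map_isZero hX
  have hz' : ∀ X : C, IsZero (X⟦n⟧) → IsZero X := fun X hX =>
    ((shiftFunctor C (-n)).map_isZero hX).of_iso (shiftShiftNeg X n).symm
  induction h with
  | zero h => exact HN.zero (hz _ h)
  | cons f g h hT hE' hA hA0 hl ih =>
    have hT' := Triangle.shift_distinguished _ hT n
    refine HN.cons _ _ _ hT' ih ((P_shiftn S _ _ n).2 hA) (fun h0 => hA0 (hz' _ h0)) ?_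
    intro ψ hψ
    obtain ⟨χ, hχ, rfl⟩ := List.mem_map.1 hψ
    have := hl χ hχ
    simpa using this

theorem isZero_shift_iff (X : C) (n : ℤ) : IsZero (X⟦n⟧) ↔ IsZero X := by
  have _ := contractible_distinguished X
  exact ⟨fun hX => ((shiftFunctor C (-n)).map_isZero hX).of_iso (shiftShiftNeg X n).symm,
    fun hX => (shiftFunctor C n).map_isZero hX⟩

theorem hn_single (S : Slicing C) {φ : ℝ} {E : C} (h : S.P φ E) (h0 : ¬ IsZero E) :
    HN S.P E [φ] := by
  open ZeroObject in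
  exact HN.cons (0 : (0 : C) ⟶ E) (𝟙 E) 0 (contractible_distinguished₁ E)
    (HN.zero (isZero_zero C)) h h0 (by simp)

theorem hn_sorted {P : ℝ → ObjectProperty C} {E : C} {l : List ℝ} (h : HN P E l) :
    l.Pairwise (· < ·) := by
  induction h with
  | zero h => exact List.Pairwise.nil
  | cons f g h hT hE' hA hA0 hl ih => exact List.Pairwise.cons hl ih

end MP_14a437_ag
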