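import Pool.Agent.Work.MP_14a437_ag.S.Shift

/-!
# S/Trunc  (M) : truncation of HN filtrations

`L` is a lower set of phases.  Every `E` sits in a distinguished triangle `A → E → B → A[1]`, where the
HN filtration of `A` has the phases of `E` not in `L`, the one of `B` those in `L`; more precisely
`l = l₂ ++ l₁`.

Proof: induction on the HN filtration `E' -f-> E -g-> D`, `l = φ :: l'`.
If `φ ∉ L`: then all `ψ ∈ l'` (which are `> φ`) are not in `L`; take `A = E`, `B = 0`, `l₂ = []`.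
If `φ ∈ L`: by induction there is `A -i-> E' -p-> B'` with `l' = l₂' ++ l₁`; apply the octahedral axiom
(`Triangulated.someOctahedron`) to `i ≫ f`: with `B` the cone of `i ≫ f : A ⟶ E` there is a
distinguished triangle `B' → B → D`, so `B` has the HN filtration `φ :: l₂'` (`HN.cons`).
-/

open CategoryTheory CategoryTheory.Limits CategoryTheory.Pretriangulated

universe v u

namespace MP_14a437_ag

variable {C : Type u} [Category.{v} C] [Preadditive C] [HasZeroObject C] [HasShift C ℤ]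
  [∀ n : ℤ, (shiftFunctor C n).Additive] [Pretriangulated C] [IsTriangulated C]

theorem exists_trunc {P : ℝ → ObjectProperty C} {L : Set ℝ} (hL : IsLowerSet L) {E : C}
    {l : List ℝ} (hE : HN P E l) :
    ∃ (A B : C) (f : A ⟶ E) (g : E ⟶ B) (h : B ⟶ A⟦(1 : ℤ)⟧) (l₁ l₂ : List ℝ),
      Triangle.mk f g h ∈ distTriang C ∧ HN P A l₁ ∧ HN P B l₂ ∧ l = l₂ ++ l₁ ∧
      (∀ φ ∈ l₁, φ ∉ L) ∧ (∀ φ ∈ l₂, φ ∈ L) := by
  induction hE with
  | @zero E h =>
    open ZeroObject in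
    exact ⟨E, 0, 𝟙 E, 0, 0, [], [], contractible_distinguished E, HN.zero h,
      HN.zero (isZero_zero C), rfl, by simp, by simp⟩
  | @cons E' E D l' φ f g h hT hE' hD hD0 hl ih =>
    by_cases hφ : φ ∈ L
    · obtain ⟨A, B', i, p, q, l₁, l₂, hT', hA, hB', rfl, h1, h2⟩ := ih
      obtain ⟨B, v, w, hB⟩ := distinguished_cocone_triangle (i ≫ f)
      have oct := Triangulated.someOctahedron (rfl : i ≫ f = i ≫ f) hT' hT hB
      refine ⟨A, B, i ≫ f, v, w, l₁, φ :: l₂, hB, hA, ?_, rfl, h1, ?_⟩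
      · exact HN.cons oct.m₁ oct.m₃ _ oct.mem hB' hD hD0
          (fun ψ hψ => hl ψ (List.mem_append_left _ hψ))
      · intro ψ hψ
        rcases List.mem_cons.1 hψ with rfl | hψ
        · exact hφ
        · exact h2 ψ hψ
    · open ZeroObject in
      refine ⟨E, 0, 𝟙 E, 0, 0, φ :: l', [], contractible_distinguished E,
        HN.cons f g h hT hE' hD hD0 hl, HN.zero (isZero_zero C), rfl, ?_, by simp⟩
      intro ψ hψ hψL
      rcases List.mem_cons.1 hψ with rfl | hψ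
      · exact hφ hψL
      · exact hφ (hL (hl ψ hψ).le hψL)

/-- The same for the classes `S.PS I`. -/
theorem PS_trunc (S : Slicing C) {I L : Set ℝ} (hL : IsLowerSet L) {E : C} (hE : S.PS I E) :
    ∃ (A B : C) (f : A ⟶ E) (g : E ⟶ B) (h : B ⟶ A⟦(1 : ℤ)⟧),
      Triangle.mk f g h ∈ distTriang C ∧ S.PS (I \ L) A ∧ S.PS (I ∩ L) B := by
  obtain ⟨l, hl, hlI⟩ := hE
  obtain ⟨A, B, f, g, h, l₁, l₂, hT, hA, hB, rfl, h1, h2⟩ := exists_trunc hL hl
  exact ⟨A, B, f, g, h, hT, ⟨l₁, hA, fun φ hφ => ⟨hlI φ (by simp [hφ]), h1 φ hφ⟩⟩,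
    ⟨l₂, hB, fun φ hφ => ⟨hlI φ (by simp [hφ]), h2 φ hφ⟩⟩⟩

end MP_14a437_ag
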