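import Pool.Agent.Work.MP_14a437_ag.S.Hom
import Pool.Agent.Work.MP_14a437_ag.S.Trunc

/-!
# S/Ext  (M) : objects with HN phases in an interval are closed under extensions

`PS_ext`.  Let `A → E → B` and `l` the HN phases of `E`; suppose `φ ∈ l`, `φ ∉ I`.  As `I` is
order connected, `I ⊆ Iio φ` or `I ⊆ Ioi φ`.
* `I ⊆ Iio φ`: truncate (`exists_trunc`) with `L = Iio φ`: `E₁ → E → E₂`; `φ ∈ l₁`, so `E₁` is not
  zero.  `Hom(E₁,A) = Hom(E₁,B) = 0` (`hn_hom_zero`), so `E₁ → E` is zero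
  (`Triangle.coyoneda_exact₂`), hence `𝟙 (E₁[1])` factors through `E₂ → E₁[1]`
  (`Triangle.coyoneda_exact₁`), but `Hom(E₁[1],E₂) = 0` (phases `≥ φ+1` and `< φ`).
* `I ⊆ Ioi φ`: truncate with `L = Iic φ`; `φ ∈ l₂`, `E₂` is not zero, `Hom(A,E₂) = Hom(B,E₂) = 0`,
  so `E → E₂` is zero (`Triangle.yoneda_exact₂`), `𝟙 E₂` factors through `E₂ → E₁[1]`
  (`Triangle.yoneda_exact₃`), but `Hom(E₁[1],E₂) = 0`.
`PS_singleton`: HN lists are strictly increasing (`hn_sorted`), so a list with all members `φ` is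
`[]` or `[φ]`.
-/

open CategoryTheory CategoryTheory.Limits CategoryTheory.Pretriangulated

universe v u

namespace MP_14a437_ag

variable {C : Type u} [Category.{v} C] [Preadditive C] [HasZeroObject C] [HasShift C ℤ]
  [∀ n : ℤ, (shiftFunctor C n).Additive] [Pretriangulated C] [IsTriangulated C]

theorem PS_ext (S : Slicing C) {I : Set ℝ} (hI : I.OrdConnected) {A E B : C} (f : A ⟶ E)
    (g : E ⟶ B) (h : B ⟶ A⟦(1 : ℤ)⟧) (hT : Triangle.mk f g h ∈ distTriang C)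
    (hA : S.PS I A) (hB : S.PS I B) : S.PS I E := by
  obtain ⟨lA, hlA, hAI⟩ := hA
  obtain ⟨lB, hlB, hBI⟩ := hB
  obtain ⟨l, hl⟩ := S.exists_hn E
  refine ⟨l, hl, fun φ hφ => ?_⟩
  by_contra hφI
  have hcase : (∀ x ∈ I, x < φ) ∨ (∀ x ∈ I, φ < x) := by
    by_contra hcon
    push Not at hcon
    obtain ⟨⟨a, haI, ha⟩, ⟨b, hbI, hb⟩⟩ := hcon
    exact hφI (hI.out hbI haI ⟨hb, ha⟩)
  rcases hcase with hlt | hgt
  · obtain ⟨A₁, B₁, f₁, g₁, h₁, l₁, l₂, hT₁, hA₁, hB₁, rfl, h1, h2⟩ :=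
      exists_trunc (isLowerSet_Iio φ) hl
    have hφ1 : φ ∈ l₁ := by
      rcases List.mem_append.1 hφ with h' | h'
      · exact absurd (h2 φ h') (lt_irrefl φ)
      · exact h'
    have hA0 : ¬ IsZero A₁ := by
      intro hz
      rw [hn_nil_of_isZero S hA₁ hz] at hφ1
      simp at hφ1
    have hge : ∀ ψ ∈ l₁, φ ≤ ψ := fun ψ hψ => not_lt.1 (h1 ψ hψ)
    have hf : f₁ = 0 := by
      have e1 : f₁ ≫ g = 0 := hn_hom_zero S hA₁ hlB
        (fun a ha b hb => lt_of_lt_of_le (hlt b (hBI b hb)) (hge a ha)) _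
      obtain ⟨u, hu⟩ := Triangle.coyoneda_exact₂ _ hT f₁ e1
      have e2 : u = 0 := hn_hom_zero S hA₁ hlA
        (fun a ha b hb => lt_of_lt_of_le (hlt b (hAI b hb)) (hge a ha)) _
      rw [hu, e2]
      exact zero_comp
    obtain ⟨u, hu⟩ := Triangle.coyoneda_exact₁ _ hT₁ (𝟙 (A₁⟦(1 : ℤ)⟧)) (by
      change 𝟙 _ ≫ (shiftFunctor C (1 : ℤ)).map f₁ = 0
      rw [hf, Functor.map_zero, comp_zero])
    have hu0 : u = 0 := hn_hom_zero S (hn_shiftn S hA₁ 1) hB₁ (by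
      intro a ha b hb
      obtain ⟨a', ha', rfl⟩ := List.mem_map.1 ha
      have k1 := hge a' ha'
      have k2 : b < φ := h2 b hb
      push_cast
      linarith) _
    apply hA0
    rw [← isZero_shift_iff A₁ 1, IsZero.iff_id_eq_zero, hu, hu0]
    exact zero_comp
  · obtain ⟨A₁, B₁, f₁, g₁, h₁, l₁, l₂, hT₁, hA₁, hB₁, rfl, h1, h2⟩ :=
      exists_trunc (isLowerSet_Iic φ) hl
    have hφ2 : φ ∈ l₂ := by
      rcases List.mem_append.1 hφ with h' | h'
      · exact h'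
      · exact absurd (le_refl φ) (h1 φ h')
    have hB0 : ¬ IsZero B₁ := by
      intro hz
      rw [hn_nil_of_isZero S hB₁ hz] at hφ2
      simp at hφ2
    have hgt1 : ∀ ψ ∈ l₁, φ < ψ := fun ψ hψ => not_le.1 (h1 ψ hψ)
    have hle2 : ∀ ψ ∈ l₂, ψ ≤ φ := fun ψ hψ => h2 ψ hψ
    have hg : g₁ = 0 := by
      have e1 : f ≫ g₁ = 0 := hn_hom_zero S hlA hB₁
        (fun a ha b hb => lt_of_le_of_lt (hle2 b hb) (hgt a (hAI a ha))) _
      obtain ⟨u, hu⟩ := Triangle.yoneda_exact₂ _ hT g₁ e1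
      have e2 : u = 0 := hn_hom_zero S hlB hB₁
        (fun a ha b hb => lt_of_le_of_lt (hle2 b hb) (hgt a (hBI a ha))) _
      rw [hu, e2]
      exact comp_zero
    obtain ⟨u, hu⟩ := Triangle.yoneda_exact₃ _ hT₁ (𝟙 B₁) (by
      change g₁ ≫ 𝟙 _ = 0
      rw [hg, zero_comp])
    have hu0 : u = 0 := hn_hom_zero S (hn_shiftn S hA₁ 1) hB₁ (by
      intro a ha b hb
      obtain ⟨a', ha', rfl⟩ := List.mem_map.1 ha
      have k1 := hgt1 a' ha'
      have k2 := hle2 b hb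
      push_cast
      linarith) _
    apply hB0
    rw [IsZero.iff_id_eq_zero, hu, hu0]
    exact comp_zero

omit [IsTriangulated C] in
theorem PS_mono (S : Slicing C) {I J : Set ℝ} (h : I ⊆ J) {E : C} (hE : S.PS I E) : S.PS J E := by
  obtain ⟨l, hl, hlI⟩ := hE
  exact ⟨l, hl, fun φ hφ => h (hlI φ hφ)⟩

omit [IsTriangulated C] in
theorem PS_iso (S : Slicing C) {I : Set ℝ} {E E' : C} (e : E ≅ E') (hE : S.PS I E) :
    S.PS I E' := by
  obtain ⟨l, hl, hlI⟩ := hE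
  exact ⟨l, hn_iso hl e, hlI⟩

omit [IsTriangulated C] in
theorem PS_zero (S : Slicing C) (I : Set ℝ) {E : C} (h : IsZero E) : S.PS I E :=
  ⟨[], HN.zero h, by simp⟩

omit [IsTriangulated C] in
theorem PS_shiftn (S : Slicing C) {I J : Set ℝ} (n : ℤ) (h : ∀ φ ∈ I, φ + n ∈ J) {E : C}
    (hE : S.PS I E) : S.PS J (E⟦n⟧) := by
  obtain ⟨l, hl, hlI⟩ := hE
  refine ⟨l.map (fun φ => φ + n), hn_shiftn S hl n, ?_⟩
  intro φ hφ
  obtain ⟨ψ, hψ, rfl⟩ := List.mem_map.1 hφ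
  exact h ψ (hlI ψ hψ)

omit [IsTriangulated C] in
theorem PS_singleton (S : Slicing C) (φ : ℝ) (E : C) : S.PS {φ} E ↔ S.P φ E := by
  constructor
  · rintro ⟨l, hl, h⟩
    have hs := hn_sorted hl
    cases hl with
    | zero h0 => exact S.zero φ E h0
    | @cons E' E A l ψ f g h' hT hE' hA hA0 hlt =>
      have hψ : ψ = φ := h ψ (by simp)
      subst hψ
      cases l with
      | nil =>
        have hz : IsZero E' := isZero_of_hn_nil hE'
        have : IsIso g := (Triangle.isZero₁_iff_isIso₂ _ hT).1 hz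
        exact P_iso S (asIso g).symm hA
      | cons χ l =>
        have h1 : χ = ψ := h χ (by simp)
        have h2 : ψ < χ := hlt χ (by simp)
        exact absurd h1 h2.ne'
  · intro h
    by_cases h0 : IsZero E
    · exact ⟨[], HN.zero h0, by simp⟩
    · exact ⟨[φ], hn_single S h h0, by simp⟩

theorem P_ext (S : Slicing C) {φ : ℝ} {A E B : C} (f : A ⟶ E)
    (g : E ⟶ B) (h : B ⟶ A⟦(1 : ℤ)⟧) (hT : Triangle.mk f g h ∈ distTriang C)
    (hA : S.P φ A) (hB : S.P φ B) : S.P φ E := by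
  rw [← PS_singleton] at hA hB ⊢
  exact PS_ext S Set.ordConnected_singleton f g h hT hA hB

end MP_14a437_ag
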