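import Pool.Agent.Work.MP_14a437_ag.S.Shift

/-!
# S/Hom  (S-M) : vanishing of morphisms between HN pieces

`hn_hom_zero`: first for `F` semistable of phase `ψ` (induction on the filtration of `E`: for
`E' -f-> E -g-> A` and `u : E ⟶ F` with `f ≫ u = 0`, `Triangle.yoneda_exact₂` factors `u` through
`g`, and `A ⟶ F` is zero by `S.hom`), then by induction on the filtration of `F`
(`Triangle.coyoneda_exact₂`).
`hn_nil_of_isZero`: if `l = φ :: l'`, then `E' → E → A → E'[1]` with `E = 0` gives an isomorphism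
`A ≅ E'[1]` (`Triangle.isZero₂_iff_isIso₃`); its inverse `E'[1] ⟶ A` is zero by `hn_hom_zero`,
because the phases of `E'[1]` are `> φ + 1 > φ` (`hn_shiftn` with `n = 1`); so `A = 0`.
-/

open CategoryTheory CategoryTheory.Limits CategoryTheory.Pretriangulated

universe v u

namespace MP_14a437_ag

variable {C : Type u} [Category.{v} C] [Preadditive C] [HasZeroObject C] [HasShift C ℤ]
  [∀ n : ℤ, (shiftFunctor C n).Additive] [Pretriangulated C]

theorem hn_hom_zero (S : Slicing C) {E F : C} {l m : List ℝ} (hE : HN S.P E l) (hF : HN S.P F m)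
    (h : ∀ φ ∈ l, ∀ ψ ∈ m, ψ < φ) (f : E ⟶ F) : f = 0 := by
  have key : ∀ {E : C} {l : List ℝ} (_ : HN S.P E l) {ψ : ℝ} {F : C} (_ : S.P ψ F)
      (_ : ∀ φ ∈ l, ψ < φ) (u : E ⟶ F), u = 0 := by
    intro E l hE ψ F hF
    induction hE with
    | zero h => exact fun _ u => h.eq_of_src _ _
    | cons f' g' h' hT hE' hA hA0 hl ih =>
      intro hψ u
      have e1 : f' ≫ u = 0 := ih (fun χ hχ => hψ χ (List.mem_cons_of_mem _ hχ)) _
      obtain ⟨v, hv⟩ := Triangle.yoneda_exact₂ _ hT u e1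
      have e2 : v = 0 := S.hom _ _ _ _ (hψ _ List.mem_cons_self) hA hF v
      rw [hv, e2]
      exact comp_zero
  induction hF with
  | zero h0 => exact h0.eq_of_tgt _ _
  | cons f' g' h' hT hE' hA hA0 hl ih =>
    have e1 : f ≫ g' = 0 := key hE hA (fun φ hφ => h φ hφ _ List.mem_cons_self) _
    obtain ⟨v, hv⟩ := Triangle.coyoneda_exact₂ _ hT f e1
    have e2 : v = 0 := ih (fun φ hφ ψ hψ => h φ hφ ψ (List.mem_cons_of_mem _ hψ)) v
    rw [hv, e2]
    exact zero_comp

theorem hn_nil_of_isZero (S : Slicing C) {E : C} {l : List ℝ} (hE : HN S.P E l)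
    (h : IsZero E) : l = [] := by
  cases hE with
  | zero h => rfl
  | @cons E' E A l φ f' g' h' hT hE' hA hA0 hl =>
    exfalso
    have hi : IsIso h' := (Triangle.isZero₂_iff_isIso₃ _ hT).1 h
    have e0 : inv h' = 0 := hn_hom_zero S (hn_shiftn S hE' 1) (hn_single S hA hA0) (by
      intro a ha b hb
      obtain ⟨a', ha', rfl⟩ := List.mem_map.1 ha
      have k1 := hl a' ha'
      have k2 : b = φ := by simpa using hb
      push_cast
      linarith) _
    apply hA0
    rw [IsZero.iff_id_eq_zero, ← IsIso.hom_inv_id h', e0]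
    exact comp_zero

theorem isZero_of_hn_nil {P : ℝ → ObjectProperty C} {E : C} (hE : HN P E []) : IsZero E := by
  cases hE with
  | zero h => exact h

/-- Objects with HN phases in `I` have no nonzero morphisms to objects with HN phases in `J`,
when `J < I`. -/
theorem PS_hom_zero (S : Slicing C) {I J : Set ℝ} (h : ∀ φ ∈ I, ∀ ψ ∈ J, ψ < φ) {E F : C}
    (hE : S.PS I E) (hF : S.PS J F) (f : E ⟶ F) : f = 0 := by
  obtain ⟨l, hl, hlI⟩ := hE
  obtain ⟨m, hm, hmJ⟩ := hF
  exact hn_hom_zero S hl hm (fun φ hφ ψ hψ => h φ (hlI φ hφ) ψ (hmJ ψ hψ)) f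

end MP_14a437_ag
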